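import Pool.Agent.H89.FLT.S

/-! MP_e1ba20, row MUL: if `η` commutes with `η0`, whose characteristic polynomial is irreducible,
then the characteristic polynomial of `η` is a power of an irreducible polynomial and all its
roots have the same multiplicity. -/

set_option autoImplicit false

open Matrix Polynomial

namespace Pool.FLT.H82

/-- polynomials in a matrix commute with what commutes with the matrix -/
theorem comm_aeval {n : ℕ} (P N0 : Matrix (Fin n) (Fin n) ℚ) (hc : P * N0 = N0 * P) (q : ℚ[X]) :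
    P * aeval N0 q = aeval N0 q * P := by
  induction q using Polynomial.induction_on' with
  | add p q hp hq => rw [map_add, mul_add, add_mul, hp, hq]
  | monomial k a =>
    rw [Polynomial.aeval_monomial]
    have h1 : P * N0 ^ k = N0 ^ k * P := (Commute.pow_right (show Commute P N0 from hc) k)
    have h2 : P * (algebraMap ℚ (Matrix (Fin n) (Fin n) ℚ)) a =
      (algebraMap ℚ (Matrix (Fin n) (Fin n) ℚ)) a * P := (Algebra.commutes a P).symm
    rw [← mul_assoc, h2, mul_assoc, h1, mul_assoc]

/-- a singular matrix which commutes with a matrix of irreducible characteristic polynomial is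
zero -/
theorem stepA {n : ℕ} (N0 P : Matrix (Fin n) (Fin n) ℚ) (hirr : Irreducible N0.charpoly)
    (hc : P * N0 = N0 * P) (v : Fin n → ℚ) (hv : v ≠ 0) (hPv : P.mulVec v = 0) : P = 0 := by
  let L : degreeLT ℚ n →ₗ[ℚ] (Fin n → ℚ) :=
    { toFun := fun q => (aeval N0 (q : ℚ[X])).mulVec v
      map_add' := by
        intro a b
        simp only [Submodule.coe_add, map_add, Matrix.add_mulVec]
      map_smul' := by
        intro a b
        simp only [Submodule.coe_smul, map_smul, Matrix.smul_mulVec, RingHom.id_apply] }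
  have hL : ∀ q : degreeLT ℚ n, L q = (aeval N0 (q : ℚ[X])).mulVec v := fun _ => rfl
  have hker : ∀ q : degreeLT ℚ n, L q = 0 → q = 0 := by
    intro q hq
    by_contra hne
    have hq0 : (q : ℚ[X]) ≠ 0 := fun h => hne (Subtype.ext h)
    have hnd : ¬ N0.charpoly ∣ (q : ℚ[X]) := by
      intro hd
      have h1 : N0.charpoly.degree ≤ (q : ℚ[X]).degree := Polynomial.degree_le_of_dvd hd hq0
      have h2 : (q : ℚ[X]).degree < (n : ℕ) := Polynomial.mem_degreeLT.mp q.2
      rw [Matrix.charpoly_degree_eq_dim, Fintype.card_fin] at h1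
      exact absurd h2 (not_lt.mpr h1)
    obtain ⟨a, b, hab⟩ := (hirr.coprime_iff_not_dvd).mpr hnd
    have h3 := congrArg (fun p : ℚ[X] => (aeval N0 p).mulVec v) hab
    simp only [map_add, map_mul, Matrix.aeval_self_charpoly, mul_zero, zero_add, map_one,
      Matrix.one_mulVec] at h3
    rw [← Matrix.mulVec_mulVec] at h3
    rw [hL] at hq
    rw [hq, Matrix.mulVec_zero] at h3
    exact hv h3.symm
  let e := degreeLTEquiv ℚ n
  let L2 : (Fin n → ℚ) →ₗ[ℚ] (Fin n → ℚ) := L.comp (e.symm : (Fin n → ℚ) →ₗ[ℚ] degreeLT ℚ n)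
  have hinj : Function.Injective L2 := by
    rw [injective_iff_map_eq_zero]
    intro x hx
    have h1 : e.symm x = 0 := hker _ hx
    exact (LinearEquiv.map_eq_zero_iff e.symm).mp h1
  have hsurj : Function.Surjective L2 := LinearMap.injective_iff_surjective.mp hinj
  have hcomm : ∀ q : ℚ[X], P * aeval N0 q = aeval N0 q * P := comm_aeval P N0 hc
  have hall : ∀ w : Fin n → ℚ, P.mulVec w = 0 := by
    intro w
    obtain ⟨x, hx⟩ := hsurj w
    have h1 : w = (aeval N0 ((e.symm x : degreeLT ℚ n) : ℚ[X])).mulVec v := hx.symm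
    rw [h1, Matrix.mulVec_mulVec, hcomm, ← Matrix.mulVec_mulVec, hPv, Matrix.mulVec_zero]
  ext i j
  have h := congrFun (hall (Pi.single j 1)) i
  simpa using h

/-- intertwining -/
theorem inter {n : ℕ} (M G D : Matrix (Fin n) (Fin n) ℝ) (h : M * G = G * D) (A : ℚ[X]) :
    aeval M A * G = G * aeval D A := by
  induction A using Polynomial.induction_on' with
  | add p q hp hq => rw [map_add, map_add, mul_add, add_mul, hp, hq]
  | monomial k a =>
    rw [Polynomial.aeval_monomial, Polynomial.aeval_monomial]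
    have h1 : G * D ^ k = M ^ k * G := (SemiconjBy.pow_right (show SemiconjBy G D M from h.symm) k)
    have h2 : G * (algebraMap ℚ (Matrix (Fin n) (Fin n) ℝ)) a =
      (algebraMap ℚ (Matrix (Fin n) (Fin n) ℝ)) a * G := (Algebra.commutes a G).symm
    rw [mul_assoc, ← h1, ← mul_assoc, ← h2, mul_assoc]

theorem aeval_diag {n : ℕ} (d : Fin n → ℝ) (A : ℚ[X]) :
    aeval (diagonal d) A = diagonal (fun i => aeval (d i) A) := by
  have h1 : (diagonalAlgHom ℚ : (Fin n → ℝ) →ₐ[ℚ] Matrix (Fin n) (Fin n) ℝ) d = diagonal d := rfl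
  rw [← h1, Polynomial.aeval_algHom_apply]
  have h2 : (aeval d A : Fin n → ℝ) = fun i => aeval (d i) A := by
    funext i
    exact (Polynomial.aeval_algHom_apply (Pi.evalAlgHom ℚ (fun _ : Fin n => ℝ) i) d A).symm
  rw [h2]
  rfl

/-- the rational matrix -/
noncomputable def qm {n : ℕ} (η : Matrix (Fin n) (Fin n) ℤ) : Matrix (Fin n) (Fin n) ℚ :=
  η.map (Int.castRingHom ℚ)

theorem qm_real {n : ℕ} (η : Matrix (Fin n) (Fin n) ℤ) (A : ℚ[X]) :
    (aeval (qm η) A).map (algebraMap ℚ ℝ) = aeval (cst η) A := by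
  have h1 : cst η = (Algebra.ofId ℚ ℝ).mapMatrix (qm η) := by
    ext i j
    simp [cst, qm]
  rw [h1, Polynomial.aeval_algHom_apply]
  rfl

end Pool.FLT.H82

namespace Pool.FLT

open Pool.FLT.H82

theorem mul : MULStmt := by
  intro n hn g η0 η d0 d h0 hirr hη
  set G : Matrix (Fin n) (Fin n) ℝ := (g : Matrix (Fin n) (Fin n) ℝ) with hG
  have hdet : G.det = 1 := g.2
  have hunit : IsUnit G := by
    rw [Matrix.isUnit_iff_isUnit_det, hdet]
    exact isUnit_one
  have h0' : cst η0 * G = G * diagonal d0 := h0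
  have hη' : cst η * G = G * diagonal d := hη
  -- commutation
  have hc1 : cst η * cst η0 = cst η0 * cst η := by
    have h1 : cst η * cst η0 * G = cst η0 * cst η * G := by
      rw [mul_assoc, h0', ← mul_assoc, hη', mul_assoc, Matrix.diagonal_mul_diagonal, mul_assoc,
        hη', ← mul_assoc, h0', mul_assoc, Matrix.diagonal_mul_diagonal]
      congr 2
      funext i
      ring
    exact hunit.mul_right_cancel h1
  have hc2 : η * η0 = η0 * η := by
    have h2 : (Int.castRingHom ℝ).mapMatrix (η * η0) = (Int.castRingHom ℝ).mapMatrix (η0 * η) := by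
      rw [map_mul, map_mul]
      exact hc1
    ext i j
    have h3 := congrFun (congrFun h2 i) j
    simp only [RingHom.mapMatrix_apply, Matrix.map_apply, Int.coe_castRingHom] at h3
    exact_mod_cast h3
  have hc3 : qm η * qm η0 = qm η0 * qm η := by
    have h3 : (Int.castRingHom ℚ).mapMatrix (η * η0) = (Int.castRingHom ℚ).mapMatrix (η0 * η) := by
      rw [hc2]
    rw [map_mul, map_mul] at h3
    exact h3
  have hchq : ∀ ξ : Matrix (Fin n) (Fin n) ℤ, chQ ξ = (qm ξ).charpoly := by
    intro ξ
    unfold chQ qm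
    rw [Matrix.charpoly_map]
  -- polynomials in η
  have hF1 : ∀ A : ℚ[X], aeval (cst η) A * G = G * diagonal (fun i => aeval (d i) A) := by
    intro A
    rw [inter _ _ _ hη' A, aeval_diag]
  have hF2 : ∀ A : ℚ[X], aeval (qm η) A = 0 → ∀ i, aeval (d i) A = 0 := by
    intro A hA i
    have h1 : aeval (cst η) A = 0 := by
      rw [← qm_real, hA]
      ext i j
      simp
    have h2 := hF1 A
    rw [h1, zero_mul] at h2
    have h3 : diagonal (fun i => aeval (d i) A) = (0 : Matrix (Fin n) (Fin n) ℝ) := by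
      apply hunit.mul_left_cancel
      rw [← h2, mul_zero]
    have h4 := congrFun (congrFun h3 i) i
    simpa using h4
  have hF3 : ∀ (A : ℚ[X]) (i : Fin n), aeval (d i) A = 0 → (aeval (qm η) A).det = 0 := by
    intro A i hi
    have h1 := congrArg Matrix.det (hF1 A)
    rw [Matrix.det_mul, Matrix.det_mul, hdet, mul_one, one_mul, Matrix.det_diagonal,
      Finset.prod_eq_zero (Finset.mem_univ i) hi, ← qm_real] at h1
    have h2 : (algebraMap ℚ ℝ) ((aeval (qm η) A).det) = 0 := by
      rw [RingHom.map_det]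
      exact h1
    exact (map_eq_zero (algebraMap ℚ ℝ)).mp h2
  -- the characteristic polynomial over the reals
  have hreal : (chQ η).map (algebraMap ℚ ℝ) = ∏ i, (X - C (d i)) := by
    have h1 : (chQ η).map (algebraMap ℚ ℝ) = (cst η).charpoly := by
      have h0 : (qm η).map (algebraMap ℚ ℝ) = cst η := by
        ext i j
        simp [cst, qm]
      rw [hchq, ← Matrix.charpoly_map, h0]
    rw [h1, ← Matrix.charpoly_diagonal]
    obtain ⟨u, hu⟩ := hunit
    have h2 : cst η = u.val * diagonal d * u⁻¹.val := by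
      rw [hu, ← hη', ← hu, mul_assoc, Units.mul_inv, mul_one]
    rw [h2, Matrix.charpoly_mul_comm, ← mul_assoc, Units.inv_mul, one_mul]
  have hmon : (chQ η).Monic := by
    rw [hchq]
    exact Matrix.charpoly_monic _
  have hroot : ∀ i, aeval (d i) (chQ η) = 0 := by
    intro i
    rw [Polynomial.aeval_def, ← Polynomial.eval_map, hreal, Polynomial.eval_prod]
    exact Finset.prod_eq_zero (Finset.mem_univ i) (by simp)
  let i0 : Fin n := ⟨0, by omega⟩
  have hint : IsIntegral ℚ (d i0) := ⟨chQ η, hmon, by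
    have := hroot i0
    rwa [Polynomial.aeval_def] at this⟩
  set μ : ℚ[X] := minpoly ℚ (d i0) with hμ
  have hμi : Irreducible μ := minpoly.irreducible hint
  have hμm : μ.Monic := minpoly.monic hint
  have hzero : aeval (qm η) μ = 0 := by
    have h1 : (aeval (qm η) μ).det = 0 := hF3 μ i0 (minpoly.aeval ℚ (d i0))
    obtain ⟨v, hv, hPv⟩ := Matrix.exists_mulVec_eq_zero_iff.mpr h1
    refine stepA (qm η0) _ (by rw [← hchq]; exact hirr) ?_ v hv hPv
    exact (comm_aeval (qm η0) (qm η) hc3.symm μ).symm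
  have hall : ∀ i, aeval (d i) μ = 0 := hF2 μ hzero
  have hdvd : ∀ (i : Fin n) (R : ℚ[X]), aeval (d i) R = 0 → μ ∣ R := by
    intro i R hR
    rw [minpoly.eq_of_irreducible_of_monic hμi (hall i) hμm]
    exact minpoly.dvd ℚ (d i) hR
  have hfin : FiniteMultiplicity μ (chQ η) :=
    Polynomial.finiteMultiplicity_of_degree_pos_of_monic
      (Polynomial.degree_pos_of_irreducible hμi) hμm hmon.ne_zero
  obtain ⟨R, hR, hRn⟩ := hfin.exists_eq_pow_mul_and_not_dvd
  set k : ℕ := multiplicity μ (chQ η) with hk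
  have hRm : R.Monic := by
    apply Polynomial.Monic.of_mul_monic_left (hμm.pow k)
    rw [← hR]
    exact hmon
  have hspl : (R.map (algebraMap ℚ ℝ)).Splits := by
    refine Polynomial.Splits.of_dvd (g := (chQ η).map (algebraMap ℚ ℝ)) ?_ ?_ ?_
    · rw [hreal]
      exact Polynomial.Splits.prod (fun i _ => Polynomial.Splits.X_sub_C _)
    · exact (hmon.map _).ne_zero
    · exact Polynomial.map_dvd _ ⟨μ ^ k, by rw [hR]; ring⟩
  have hR1 : R = 1 := by
    by_contra hne
    have h1 : R.natDegree ≠ 0 := fun h => hne (hRm.natDegree_eq_zero.mp h)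
    have h2 : (R.map (algebraMap ℚ ℝ)).degree ≠ 0 := by
      rw [Polynomial.degree_map]
      exact fun h => h1 (Polynomial.natDegree_eq_of_degree_eq_some h)
    obtain ⟨x, hx⟩ := Polynomial.Splits.exists_eval_eq_zero hspl h2
    have h3 : ((chQ η).map (algebraMap ℚ ℝ)).eval x = 0 := by
      rw [hR, Polynomial.map_mul, Polynomial.eval_mul, hx, mul_zero]
    rw [hreal, Polynomial.eval_prod, Finset.prod_eq_zero_iff] at h3
    obtain ⟨i, _, hi⟩ := h3
    have h4 : x = d i := by
      have : x - d i = 0 := by simpa using hi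
      linarith
    apply hRn
    apply hdvd i
    rw [Polynomial.aeval_def, ← Polynomial.eval_map, ← h4]
    exact hx
  rw [hR1, mul_one] at hR
  refine ⟨k, μ, hμi, hR, ?_⟩
  intro i
  have h1 : ((chQ η).map (algebraMap ℚ ℝ)).roots = (Finset.univ.val.map d) := by
    rw [hreal]
    have h2 := Polynomial.roots_multiset_prod_X_sub_C (Finset.univ.val.map d)
    rw [Multiset.map_map] at h2
    exact h2
  have h2 : ((chQ η).map (algebraMap ℚ ℝ)).roots = k • (μ.map (algebraMap ℚ ℝ)).roots := by
    rw [hR, Polynomial.map_pow, Polynomial.roots_pow]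
  have h3 : (μ.map (algebraMap ℚ ℝ)).roots.Nodup :=
    Polynomial.nodup_roots (Polynomial.Separable.map hμi.separable)
  have h4 : d i ∈ (μ.map (algebraMap ℚ ℝ)).roots := by
    rw [Polynomial.mem_roots (hμm.map _).ne_zero, Polynomial.IsRoot.def, Polynomial.eval_map,
      ← Polynomial.aeval_def]
    exact hall i
  have h5 : Multiset.count (d i) ((chQ η).map (algebraMap ℚ ℝ)).roots = k := by
    rw [h2, Multiset.count_nsmul, Multiset.count_eq_one_of_mem h3 h4, mul_one]
  rw [h1, Multiset.count_map] at h5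
  rw [← h5, Finset.card_def, Finset.filter_val]
  congr 1
  apply Multiset.filter_congr
  intro x _
  exact eq_comm

end Pool.FLT
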